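import Pool.Agent.Helper15.UL.GoalsE

/-! # MP_57a173_lc, packet C1L: the local part of case 1 of the dichotomy -/

noncomputable section

namespace UL.PkC1L

open UL Pool.Agent.Helper97.Ku NU MeasureTheory

/-- Local constancy of `Pre σ (x z)`. -/
theorem LC_pre {I : Type} {D : Set I} {x : Pt I → ℕ → Bool}
    (hx : ∀ n, LC D (fun z => x z n)) (σ : Str) : LC D (fun z => Pre σ (x z)) := by
  induction σ using List.reverseRecOn with
  | nil =>
    have : (fun z : Pt I => Pre [] (x z)) = fun _ => True := by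
      funext z
      exact propext ⟨fun _ => trivial, fun _ => pre_nil _⟩
    rw [this]
    exact LC.const _
  | append_singleton σ b ih =>
    have : (fun z : Pt I => Pre (σ ++ [b]) (x z)) =
        fun z => (Pre σ (x z) ∧ (b = x z σ.length)) := by
      funext z
      apply propext
      rw [pre_append]
      refine and_congr_right fun _ => ?_
      constructor
      · intro h
        have := h 0 (by simp)
        simpa using this
      · intro h i hi
        have hi' : i = 0 := by simpa using hi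
        subst hi'
        simpa using h
    rw [this]
    exact ih.map₂ (hx σ.length) (fun p c => p ∧ (b = c))

open Classical in
/-- Local constancy of the least index. -/
theorem LC_find {I : Type} {D : Set I} {p : ℕ → Pt I → Prop} (hp : ∀ m, LC D (p m))
    (hex : ∀ z, ∃ m, p m z) : LC D (fun z => Nat.find (hex z)) := by
  choose A hA hA' h using hp
  refine ⟨⋃ m, A m, Set.iUnion_subset hA, Set.countable_iUnion hA', fun z => ?_⟩
  choose F hF n hn using fun m => h m z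
  refine ⟨(Finset.range (Nat.find (hex z) + 1)).biUnion F, ?_,
    (Finset.range (Nat.find (hex z) + 1)).sup n, fun z' hz' => ?_⟩
  · intro ξ hξ
    rw [Finset.mem_coe, Finset.mem_biUnion] at hξ
    obtain ⟨m, -, hm⟩ := hξ
    exact Set.mem_iUnion.2 ⟨m, hF m hm⟩
  · have key : ∀ m, m ≤ Nat.find (hex z) → p m z' = p m z := by
      intro m hm
      refine hn m z' fun ξ hξ i hi => hz' ξ ?_ i ?_
      · exact Finset.mem_biUnion.2 ⟨m, Finset.mem_range.2 (by omega), hξ⟩
      · exact lt_of_lt_of_le hi (Finset.le_sup (f := n) (Finset.mem_range.2 (by omega)))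
    rw [Nat.find_eq_iff]
    refine ⟨?_, fun m hm => ?_⟩
    · rw [key _ le_rfl]
      exact Nat.find_spec (hex z)
    · rw [key m hm.le]
      exact Nat.find_min (hex z) hm

/-- A locally constant choice of the stage. -/
theorem exists_stage {I : Type} {D : Set I} {Q : Pt I → Str → Prop} {x : Pt I → ℕ → Bool}
    (hQ : ∀ σ, LC D (fun z => Q z σ)) (hx : ∀ n, LC D (fun z => x z n))
    (hex : ∀ z, ∃ σ, Q z σ ∧ Pre σ (x z)) :
    ∃ f : Pt I → ℕ, LC D f ∧ ∀ z, Stg (Q z) (f z) (x z) := by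
  classical
  have hp : ∀ e : ℕ, LC D (fun z => ∃ σ : Str, Encodable.encode σ = e ∧ Q z σ ∧ Pre σ (x z)) := by
    intro e
    by_cases he : ∃ σ : Str, Encodable.encode σ = e
    · obtain ⟨σ, rfl⟩ := he
      have : (fun z : Pt I => ∃ σ' : Str, Encodable.encode σ' = Encodable.encode σ ∧ Q z σ' ∧
          Pre σ' (x z)) = fun z => (Q z σ ∧ Pre σ (x z)) := by
        funext z
        apply propext
        constructor
        · rintro ⟨σ', e, h⟩
          have := Encodable.encode_injective e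
          subst this
          exact h
        · intro h
          exact ⟨σ, rfl, h⟩
      rw [this]
      exact (hQ σ).map₂ (LC_pre hx σ) (fun a b => a ∧ b)
    · have : (fun z : Pt I => ∃ σ' : Str, Encodable.encode σ' = e ∧ Q z σ' ∧
          Pre σ' (x z)) = fun z => False := by
        funext z
        apply propext
        constructor
        · rintro ⟨σ', e, h⟩
          exact he ⟨σ', e⟩
        · intro h
          exact h.elim
      rw [this]
      exact LC.const _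
  have hex' : ∀ z, ∃ e : ℕ, ∃ σ : Str, Encodable.encode σ = e ∧ Q z σ ∧ Pre σ (x z) := by
    intro z
    obtain ⟨σ, h⟩ := hex z
    exact ⟨_, σ, rfl, h⟩
  refine ⟨fun z => Nat.find (hex' z) + 1, (LC_find hp hex').map (· + 1), fun z => ?_⟩
  obtain ⟨σ, h1, h2⟩ := Nat.find_spec (hex' z)
  exact ⟨σ, by rw [h1]; exact Nat.lt_succ_self _, h2⟩

theorem Stg_mono {Q : Str → Prop} {m m' : ℕ} {x : ℕ → Bool} (h : Stg Q m x) (hm : m ≤ m') :
    Stg Q m' x := by
  obtain ⟨σ, h1, h2⟩ := h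
  exact ⟨σ, lt_of_lt_of_le h1 hm, h2⟩

theorem thm : UL.G_BP → UL.G_REP → UL.G_DEF → UL.G_DCC → UL.G_OPV → UL.G_GDS → UL.G_POS →
    UL.G_TREE → UL.G_MES → UL.G_C1L := by
  intro hBP hREP hDEF hDCC hOPV hGDS hPOS hTREE hMES I _ _ hHF hIO α q ω₀ hω₀
  obtain ⟨g, hg, Q, hQ, hQD⟩ := hREP I hHF (ℕ × Str) (fun p => q p.1 p.2) ω₀ hω₀
  have hω : IsM (ω₀ ∘ g) := hω₀.comp hg
  -- the bound
  obtain ⟨β, hαβ, hQβ⟩ : ∃ β, α < β ∧ ∀ p, LC (Set.Iio β) (fun z => Q z p) := by
    choose A hA hA' hA'' using hQ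
    have hc : ((⋃ p, A p) ∪ {α}).Countable :=
      (Set.countable_iUnion hA').union (Set.countable_singleton α)
    obtain ⟨β, hβ⟩ := hIO.bdd ↥((⋃ p, A p) ∪ {α}) Subtype.val
      (hc.le_aleph0.trans Cardinal.aleph0_le_continuum)
    refine ⟨β, hβ ⟨α, Or.inr rfl⟩, fun p => ⟨A p, fun ξ hξ => ?_, hA' p, hA'' p⟩⟩
    exact hβ ⟨ξ, Or.inl (Set.mem_iUnion.2 ⟨p, hξ⟩)⟩
  -- the names
  have hq' : ∀ (k : ℕ) (σ : Str), ∃ a : BA I, Dc (ω₀ ∘ g) a
      {z | cof (fun n σ => Q z (n, σ) = true) (z β) (Denumerable.ofNat (List ℕ) k) σ} :=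
    fun k σ => hDEF I (ω₀ ∘ g) hω _
  choose q' hq'D using hq'
  refine ⟨g, hg, q', ?_⟩
  intro χ hχ x hx r hr
  have hωχ : IsM (ω₀ ∘ g ∘ χ) := hω.comp hχ
  -- local constancy
  have hQχ : ∀ p, LC (Set.Iio β) (fun z => Q (χ z) p) := fun p =>
    (hQβ p).comp (isLowerSet_Iio β) hχ
  have hxβ : ∀ n, LC (Set.Iio β) (fun z => x z n) := fun n =>
    (hx n).mono fun ξ hξ => lt_trans hξ hαβ
  -- measurability
  have mQ : ∀ p, MeasurableSet {z | Q (χ z) p = true} := fun p =>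
    (hMES I).1 Bool _ ((hQχ p).mono (Set.subset_univ _)) {true}
  have mx : ∀ n, MeasurableSet {z | x z n = true} := fun n =>
    (hMES I).1 Bool _ ((hxβ n).mono (Set.subset_univ _)) {true}
  have mpre : ∀ σ : Str, MeasurableSet {z | Pre σ (x z)} := fun σ => by
    have h := (hMES I).1 Prop _ ((LC_pre hxβ σ).mono (Set.subset_univ _)) {True}
    have e : (fun z => Pre σ (x z)) ⁻¹' {True} = {z | Pre σ (x z)} := by
      ext z
      simp
    rwa [e] at h
  have mcof : ∀ (k : ℕ) (σ : Str), MeasurableSet {z | cof (fun n σ => Q (χ z) (n, σ) = true)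
      (χ z β) (Denumerable.ofNat (List ℕ) k) σ} := by
    intro k σ
    refine hGDS.2 (Pt I) (fun z n σ => Q (χ z) (n, σ) = true) (fun z => χ z β)
      (fun n σ => mQ (n, σ)) (fun i => ?_) _ σ
    have h1 : Measurable χ := (hMES I).2.1 χ hχ
    have h2 : Measurable (fun w : Pt I => (w β : ℕ → Bool) i) :=
      (measurable_pi_apply i).comp (measurable_subtype_coe.comp (measurable_pi_apply β))
    exact (h2.comp h1) (measurableSet_singleton true)
  -- the two sets
  let S : Set (Pt I) := {z | ∀ n, z ∈ {z | ∃ σ, z ∈ {z | Q (χ z) (n, σ) = true} ∧ Pre σ (x z)}}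
  let T' : ℕ → Set (Pt I) := fun k => {z | ∃ σ, z ∈ {z | cof (fun n σ => Q (χ z) (n, σ) = true)
      (χ z β) (Denumerable.ofNat (List ℕ) k) σ} ∧ Pre σ (x z)}
  let T : Set (Pt I) := {z | ∃ k, z ∈ (T' k)ᶜ}
  have mS0 : ∀ n, MeasurableSet {z | ∃ σ, z ∈ {z | Q (χ z) (n, σ) = true} ∧ Pre σ (x z)} := by
    intro n
    have e : {z | ∃ σ, z ∈ {z | Q (χ z) (n, σ) = true} ∧ Pre σ (x z)} =
        ⋃ σ, ({z | Q (χ z) (n, σ) = true} ∩ {z | Pre σ (x z)}) := by
      ext z
      simp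
    rw [e]
    exact MeasurableSet.iUnion fun σ => (mQ (n, σ)).inter (mpre σ)
  have mS : MeasurableSet S := by
    have e : S = ⋂ n, {z | ∃ σ, z ∈ {z | Q (χ z) (n, σ) = true} ∧ Pre σ (x z)} := by
      ext z
      simp [S]
    rw [e]
    exact MeasurableSet.iInter mS0
  have mT' : ∀ k, MeasurableSet (T' k) := by
    intro k
    have e : T' k = ⋃ σ, ({z | cof (fun n σ => Q (χ z) (n, σ) = true)
      (χ z β) (Denumerable.ofNat (List ℕ) k) σ} ∩ {z | Pre σ (x z)}) := by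
      ext z
      simp [T']
    rw [e]
    exact MeasurableSet.iUnion fun σ => (mcof k σ).inter (mpre σ)
  have mT : MeasurableSet T := by
    have e : T = ⋃ k, (T' k)ᶜ := by
      ext z
      simp [T]
    rw [e]
    exact MeasurableSet.iUnion fun k => (mT' k).compl
  -- the decisions
  have dS : Dc (ω₀ ∘ g ∘ χ) (⨅ n, opV (q n) r) S := by
    refine ((hDCC I hHF (ω₀ ∘ g ∘ χ) hωχ).1 ℕ (fun n => opV (q n) r) _ mS0 fun n => ?_).2
    exact hOPV I hHF (ω₀ ∘ g ∘ χ) hωχ (q n) r (fun σ => {z | Q (χ z) (n, σ) = true}) x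
      (fun σ => mQ (n, σ)) mx (fun σ => (hQD (n, σ)).comp hχ) hr
  have dT : Dc (ω₀ ∘ g ∘ χ) (⨆ n, (opV (q' n) r)ᶜ) T := by
    refine ((hDCC I hHF (ω₀ ∘ g ∘ χ) hωχ).1 ℕ (fun n => (opV (q' n) r)ᶜ) (fun k => (T' k)ᶜ)
      (fun k => (mT' k).compl) fun k => ?_).1
    refine Dc.compl ?_
    exact hOPV I hHF (ω₀ ∘ g ∘ χ) hωχ (q' k) r (fun σ => {z | cof (fun n σ => Q (χ z) (n, σ) = true)
      (χ z β) (Denumerable.ofNat (List ℕ) k) σ}) x (fun σ => mcof k σ) mx
      (fun σ => (hq'D k σ).comp hχ) hr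
  have dI : Dc (ω₀ ∘ g ∘ χ) (iffV (⨅ n, opV (q n) r) (⨆ n, (opV (q' n) r)ᶜ))
      {z | z ∈ S ↔ z ∈ T} :=
    ((hDCC I hHF (ω₀ ∘ g ∘ χ) hωχ).2.2 _ _ S T mS mT dS dT).2.2.2
  -- membership in `T`
  have hT : ∀ z, z ∈ T ↔ ∃ k, ∀ n, Stg (fun σ => Q (χ z) (n, σ) = true)
      (stn (χ z β) (Denumerable.ofNat (List ℕ) k) n) (x z) := by
    intro z
    refine exists_congr fun k => ?_
    have h := hGDS.1 (fun n σ => Q (χ z) (n, σ) = true) (χ z β)
      (Denumerable.ofNat (List ℕ) k) (x z)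
    change ¬ (∃ σ, cof (fun n σ => Q (χ z) (n, σ) = true) (χ z β)
      (Denumerable.ofNat (List ℕ) k) σ ∧ Pre σ (x z)) ↔ _
    rw [h, not_not]
  have hTS : ∀ z, z ∈ T → z ∈ S := by
    intro z hz n
    obtain ⟨k, hk⟩ := (hT z).1 hz
    obtain ⟨σ, -, h1, h2⟩ := hk n
    exact ⟨σ, h1, h2⟩
  obtain ⟨h, hh, h1⟩ := (hBP I hHF).1 S mS id IsM.id'
  rcases h1 with h1 | h1
  swap
  · -- both sets are empty
    refine ⟨h, hh, (dI.comp hh).fc fun z => ?_⟩
    exact ⟨fun hc => absurd hc (h1 z), fun hc => absurd (hTS _ hc) (h1 z)⟩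
  -- all `h z` are in `S`
  let h' : Pt I → Pt I := lo (Set.Iio β) h
  have hh' : IsM h' := (hh.lo (Set.Iio β)).1
  have hagree : ∀ z, ∀ ξ ∈ Set.Iio β, h' z ξ = h z ξ := fun z ξ hξ => lo_in hξ
  have h2 : ∀ z, h' z ∈ S := by
    intro z n
    obtain ⟨σ, k1, k2⟩ := h1 z n
    refine ⟨σ, ?_, ?_⟩
    · have := (hQχ (n, σ)).dep (hagree z)
      change Q (χ (h' z)) (n, σ) = true
      rw [this]
      exact k1
    · have := (LC_pre hxβ σ).dep (hagree z)
      change Pre σ (x (h' z))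
      rw [this]
      exact k2
  have hst : ∀ n, ∃ f : Pt I → ℕ, LC (Set.Iio β) f ∧
      ∀ z, Stg (fun σ => Q (χ (h' z)) (n, σ) = true) (f z) (x (h' z)) := by
    intro n
    refine exists_stage (D := Set.Iio β) (Q := fun z σ => Q (χ (h' z)) (n, σ) = true)
      (x := fun z => x (h' z)) (fun σ => ?_) (fun i => ?_) (fun z => ?_)
    · exact (((hQχ (n, σ)).comp (isLowerSet_Iio β) hh').map (fun b => b = true))
    · exact (hxβ i).comp (isLowerSet_Iio β) hh'
    · exact h2 z n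
  choose f hf hf' using hst
  obtain ⟨L, hL⟩ : IsM (χ ∘ h') := hχ.comp hh'
  let k₀ : Pt I → ℕ := fun z => (L β z []).count true
  have hk₀ : LC (Set.Iio β) k₀ := (hL.lc β []).map _
  obtain ⟨Θ, LΘ, hΘ, hΘU, e0, e1, e2⟩ := hTREE I β (fun s z => f (s.count true + k₀ z) z)
    (fun s => LC.bind (g := fun b z => f (s.count true + b) z) hk₀ fun b => hf _)
  have hΘM : IsM Θ := ⟨LΘ, hΘ⟩
  refine ⟨h' ∘ Θ, hh'.comp hΘM, (dI.comp (hh'.comp hΘM)).fc fun z => ?_⟩
  have hSz : h' (Θ z) ∈ S := h2 (Θ z)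
  refine ⟨fun _ => ?_, fun _ => hSz⟩
  refine (hT _).2 ?_
  have hag : ∀ ξ ∈ Set.Iio β, Θ z ξ = z ξ := fun ξ hξ => hΘU.2 z ξ hξ
  have hfz : ∀ n, f n (Θ z) = f n z := fun n => (hf n).dep hag
  have hkz : k₀ (Θ z) = k₀ z := hk₀.dep hag
  have p1 : ∀ i, f (i + k₀ z) z ≤ pos (Θ z β) i := by
    refine hPOS.2 (LΘ β z) (fun s => f (s.count true + k₀ z) z) (fun i => f (i + k₀ z) z)
      (e0 z) (e1 z) (e2 z) (fun s => le_rfl) (z β) (Θ z β) fun j => hΘ.pre z β j
  have p2 : ∀ i, pos (Θ z β) i ≤ pos (χ (h' (Θ z)) β) (i + k₀ z) := by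
    have := hPOS.1 (L β (Θ z)) (hL.isL β (Θ z)) (Θ z β) (χ (h' (Θ z)) β)
      fun j => hL.pre (Θ z) β j
    intro i
    have h3 := this i
    have h4 : (L β (Θ z) []).count true = k₀ z := hkz
    rwa [h4] at h3
  refine ⟨Encodable.encode ((List.range (k₀ z)).map (fun n => f n z)), fun n => ?_⟩
  have hle : f n z ≤ stn (χ (h' (Θ z)) β) (Denumerable.ofNat (List ℕ)
      (Encodable.encode ((List.range (k₀ z)).map (fun n => f n z)))) n := by
    rw [Denumerable.ofNat_encode]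
    by_cases hn : n < k₀ z
    · have : ((List.range (k₀ z)).map (fun n => f n z))[n]? = some (f n z) := by
        simp [hn]
      rw [stn, this]
      exact le_rfl
    · have : ((List.range (k₀ z)).map (fun n => f n z))[n]? = none := by
        simp; omega
      rw [stn, this]
      have e : n - k₀ z + k₀ z = n := by omega
      have h5 := (p1 (n - k₀ z)).trans (p2 (n - k₀ z))
      rw [e] at h5
      exact h5
  refine Stg_mono ?_ hle
  have h6 := hf' n (Θ z)
  rw [hfz n] at h6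
  exact h6

end UL.PkC1L
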